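import Pool.Agent.V5helper28.SZ.CL2
import Pool.Agent.V5helper28.SZ.FIN2
import Pool.Agent.V5helper61.SZ.CLA
import Pool.Agent.V5helper41.SZ.JM
import Pool.Agent.V5helper82.SZ.JMA
import Pool.Agent.V5helper82.SZ.ATT
import Pool.Agent.V5helper82.SZ.TREE
import Pool.Agent.V5helper67.SZ.AR
import Pool.Agent.V5helper40.SZ.SUMX
import Pool.Agent.V5helper40.SZ.HAR3
import Pool.Agent.V5helper24.SZ.CHAR2
import Pool.Agent.V5helper21.SZ.CNT
import Pool.Agent.V5helper12.SZ.GEO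
import Pool.Agent.V5helper12.SZ.MEAN
import Pool.Agent.V5helper27.SZ.HAR2
import Pool.Agent.V5helper27.SZ.LOGM
import Pool.Agent.V5helper19.SZ.KT
import Pool.Agent.V5helper19.SZ.TWO
import Pool.Agent.V5helper96.SZ.OMI
import Pool.Agent.V5helper86.SZ.COEFP
import Pool.Agent.V5helper37.GC.CAU
import Pool.Agent.V5helper96.SZ.B1

set_option autoImplicit false

/-!
# MP_283627_an: Szegő's estimate for `p = 5`

For `f ∈ S` let `f(z^p)^(1/p) = z + ∑ c_n^{(p)} z^(pn+1)`. Szegő's estimate `c_n^{(5)} = O(n^(2/5-1))` holds for every `f ∈ S` (uniformly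
on `S`); more generally `|c_n^{(p)}| ≤ K_p n^(-3/5)` for every `p ≥ 5`.

The proof. (1) For `f ∈ S` and an omitted value `u` the Grunsky inequality for the odd function `√(F(z²))`, `F = u f/(u - f)`, at
`n` pairs of points, tested with the characters `e^{ijt}`, gives `|∑ A(z_j)|² ≤ (n L)² - n² (log n - C)²` for the function
`A = log (z f' u/(f (u - f)))`, so that at most `exp (C + √(L² - x²))` separated points of a circle have `Re A ≥ x`.
(2) The area principle bounds the number of points where `|f'| (1 - |z|²)` is about `ε` by `K ε^(-2)` for bounded `f`, and (3) an estimate of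
Jones-Makarov type improves this to `K ε^(-2+η)`: the image domain cannot have boundary points near most of the squares of side `ε` in a
disc at most scales, since the hyperbolic distance grows too much. (1)-(3) give an exponent less than `2/5` for the means of `|f'|`, `f`
bounded. (4) Localization: `f` is expanded at the vertices of the dyadic tree; every point of the circle is attached to the vertex on its
path to `0` where `|f'(z)| (1 - |z|²)`, weighted by a small power, is largest. This gives the mean of `|f'| |f|^(-4/5)` over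
`|z| = r` the order `(1-r)^(-2/5)` of the Koebe function.
-/

namespace Pool.Agent.Results.MP_283627_an.FifthRoot

/-- `f ∈ S`. -/
def IsS (f : ℂ → ℂ) : Prop :=
  DifferentiableOn ℂ f (Metric.ball 0 1) ∧ Set.InjOn f (Metric.ball 0 1) ∧ f 0 = 0 ∧ deriv f 0 = 1

/-- `F = f(z^p)^(1/p)`. -/
def IsRootTransform (p : ℕ) (f F : ℂ → ℂ) : Prop :=
  DifferentiableOn ℂ F (Metric.ball 0 1) ∧ deriv F 0 = 1 ∧ ∀ z : ℂ, ‖z‖ < 1 → F z ^ p = f (z ^ p)

/-- The Taylor coefficient of `F` at `z^(pn+1)`. -/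
noncomputable def coeff (p n : ℕ) (F : ℂ → ℂ) : ℂ :=
  iteratedDeriv (p * n + 1) F 0 / ((p * n + 1).factorial : ℂ)

open V5helper73.SZ

theorem two : S_TWO := V5helper19.SZ.t_TWO V5helper19.SZ.t_KT
theorem tree : S_TREE := V5helper82.SZ.t_TREE V5helper19.SZ.t_KT two V5helper12.SZ.t_GEO
theorem har3 : S_HAR3 := V5helper40.SZ.H3.t_HAR3 (V5helper27.SZ.t_HAR2 V5helper27.SZ.t_LOGM)
theorem jm : S_JM := V5helper41.SZ.t_JM V5helper67.SZ.t_AR V5helper82.SZ.t_JMA
theorem cl2 (h : S_B1) : S_CL2 := V5helper28.SZ.t_CL2 tree (V5helper61.SZ.t_CLA tree V5helper67.SZ.t_AR jm h)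
theorem fin2 (h : S_B1) : S_FIN2 := V5helper28.SZ.F2.t_FIN2 tree V5helper82.SZ.t_ATT (V5helper40.SZ.t_SUMX V5helper67.SZ.t_AR) (cl2 h)
  (V5helper12.SZ.t_MEAN V5helper19.SZ.t_KT two V5helper12.SZ.t_GEO)

theorem core (h : S_B1) : ∀ p : ℕ, 5 ≤ p → ∃ K : ℝ, ∀ f : ℂ → ℂ, IsS f → ∀ F : ℂ → ℂ, IsRootTransform p f F →
    ∀ n : ℕ, 1 ≤ n → ‖coeff p n F‖ ≤ K * (n : ℝ) ^ (-(3 / 5) : ℝ) := by
  intro p hp
  obtain ⟨K, hK⟩ := V5helper86.SZ.t_COEFP (fin2 h) V5helper37.GC.t_CAU two p hp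
  refine ⟨K, fun f hf F hF n hn => ?_⟩
  have h1 := hK f ⟨hf.1, hf.2.1, hf.2.2.1, hf.2.2.2⟩ F hF.1 (fun z hz => hF.2.2 z (mem_ball_zero_iff.1 hz)) n hn
  unfold coeff
  rwa [div_eq_inv_mul]

/-- For every `p ≥ 5` there is `K` such that `|c_n^{(p)}| ≤ K n^(-3/5)` for every `f ∈ S` and all `n ≥ 1`; for `p = 5` this is Szegő's
estimate `c_n^{(5)} = O(n^(2/5-1))`. -/
theorem result : ∀ p : ℕ, 5 ≤ p → ∃ K : ℝ, ∀ f : ℂ → ℂ, IsS f → ∀ F : ℂ → ℂ, IsRootTransform p f F →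
    ∀ n : ℕ, 1 ≤ n → ‖coeff p n F‖ ≤ K * (n : ℝ) ^ (-(3 / 5) : ℝ) :=
  core (V5helper96.SZ.t_B1 V5helper19.SZ.t_KT two V5helper12.SZ.t_GEO V5helper21.SZ.t_CNT har3 V5helper24.SZ.t_CHAR2
    V5helper96.SZ.t_OMI)

end Pool.Agent.Results.MP_283627_an.FifthRoot
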